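import Mathlib
import Pool.Agent.W231.B.Main
import Pool.Agent.W231.G.Fin

set_option autoImplicit false

/-!
# Vojta's conjecture for points of bounded degree: the exceptional set

`X = ℙ^n` over `ℚ` with `n ≥ 2`, `D` any divisor over `ℚ` containing `n + 2` hyperplanes in general
position: `D` is the zero set of `∏ i, lin (H i) * E`, where `E` is a form of degree `e`.
-/

namespace Pool.Agent.Results.MP_651af7_nt.BoundedDegreeExponential

open NumberField IsDedekindDomain

variable {L : Type} [Field L] [NumberField L] {n : ℕ}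

/-- The local Weil function of the divisor `F = 0`, `F` a form of degree `d` over `ℚ`, at the point
with homogeneous coordinates `x` over `L`, for the absolute value `a` of `L`. -/
noncomputable def weil (a : L → ℝ) (F : MvPolynomial (Fin (n + 1)) ℚ) (d : ℕ)
    (x : Fin (n + 1) → L) : ℝ :=
  Real.log ((⨆ j, a (x j)) ^ d / a (MvPolynomial.aeval x F))

/-- The proximity function `∑_{v ∈ S} λ_{D,v}(x)`, with absolute normalisation, where `S` consists
of the archimedean place of `ℚ` and of the primes in `S`: the sum over all infinite places of `L`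
and over the primes of `L` above the primes in `S`, divided by `[L : ℚ]`. -/
noncomputable def proximity (S : Finset ℕ) (F : MvPolynomial (Fin (n + 1)) ℚ) (d : ℕ)
    (x : Fin (n + 1) → L) : ℝ :=
  ((∑ w : InfinitePlace L, w.mult * weil w F d x) +
    ∑ᶠ v ∈ {v : HeightOneSpectrum (𝓞 L) | ∃ p ∈ S, (p : 𝓞 L) ∈ v.asIdeal},
      weil (FinitePlace.mk v) F d x) / Module.finrank ℚ L

/-- The absolute logarithmic height. -/
noncomputable def height (x : Fin (n + 1) → L) : ℝ :=
  Height.logHeight x / Module.finrank ℚ L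

/-- The linear form with coefficients `l`. -/
noncomputable def lin (l : Fin (n + 1) → ℚ) : MvPolynomial (Fin (n + 1)) ℚ :=
  ∑ j, MvPolynomial.C (l j) * MvPolynomial.X j

/-- Let `D` be the divisor of `ℙ^n`, `n ≥ 2`, with equation `∏ lin (H i) * E = 0`, where the
`n + 2` hyperplanes `lin (H i) = 0` are in general position over `ℚ` and `E` is a nonzero form of
degree `e` over `ℚ`; its degree is `n + 2 + e`. Let `G` be a nonzero form of degree `δ` over `ℚ`.
Suppose that for every finite set `S` of primes there is a constant `C` such that Vojta's inequality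
`∑_{v ∈ S} λ_{D,v}(x) + h_K(x) - d(L) ≤ ε h(x) + C`, with `h_K = -(n + 1) h`, holds for all number
fields `L` of degree at most `r` and all `x ∈ ℙ^n(L)` off `D` and off the zero set of `G`. Then for
every odd `k` with `ε k < 1` and every number field `K` with `k [K : ℚ] ≤ r`, the polynomial
`X ^ k - 1` has at most `2 (δ + e)` monic divisors over `K`; in particular `2 ^ k ≤ 2 (δ + e)` if
`k φ(k) ≤ r`. -/
theorem result (n : ℕ) (hn : 2 ≤ n) (H : Fin (n + 2) → Fin (n + 1) → ℚ)
    (hH : ∀ I : Finset (Fin (n + 2)), I.card = n + 1 → LinearIndependent ℚ (fun i : I => H i))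
    (E : MvPolynomial (Fin (n + 1)) ℚ) (e : ℕ) (hE : E ≠ 0) (hEe : E.IsHomogeneous e)
    (G : MvPolynomial (Fin (n + 1)) ℚ) (δ : ℕ) (hG : G ≠ 0) (hGδ : G.IsHomogeneous δ)
    (ε : ℝ) (r : ℕ)
    (hV : ∀ S : Finset ℕ, (∀ p ∈ S, p.Prime) → ∃ C : ℝ,
      ∀ (L : Type) [Field L] [NumberField L], Module.finrank ℚ L ≤ r →
        ∀ x : Fin (n + 1) → L, x ≠ 0 → MvPolynomial.aeval x ((∏ i, lin (H i)) * E) ≠ 0 →
          MvPolynomial.aeval x G ≠ 0 →
          proximity S ((∏ i, lin (H i)) * E) (n + 2 + e) x + -(n + 1) * height x -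
            Real.log |(discr L : ℝ)| / Module.finrank ℚ L ≤ ε * height x + C)
    (k : ℕ) (hk : Odd k) (hεk : ε * k < 1) :
    (∀ (K : Type) [Field K] [NumberField K], k * Module.finrank ℚ K ≤ r →
      ∀ Ps : Finset (Polynomial K), (∀ P ∈ Ps, P.Monic ∧ P ∣ Polynomial.X ^ k - 1) →
        Ps.card ≤ 2 * (δ + e)) ∧
    (k * k.totient ≤ r → 2 ^ k ≤ 2 * (δ + e)) := by
  classical
  have hk1 : 1 ≤ k := hk.pos
  have key : ∀ (K : Type) [Field K] [NumberField K], k * Module.finrank ℚ K ≤ r →
      ∀ Ps : Finset (Polynomial K), (∀ P ∈ Ps, P.eval 0 = 1 ∧ P ∣ 1 - Polynomial.X ^ k) →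
        Ps.card ≤ 2 * (δ + e) := by
    intro K _ _ hr Ps hPs
    by_contra hlt
    push Not at hlt
    obtain ⟨N, hN, hmain⟩ := Pool.Agent.W231.B.main7 hn H hH E hEe hE G hG hGδ hk hεk Ps hPs hlt 2
      Nat.prime_two
    set S : Finset ℕ := (N * 2).primeFactors with hS
    obtain ⟨C, hC⟩ := hV S fun p hp => Nat.prime_of_mem_primeFactors hp
    obtain ⟨L, iF, iN, x, hfin, hx, hforms, hEx, hGx, hU⟩ := hmain C
    have hlin : ∀ i, MvPolynomial.aeval x (lin (H i)) = ∑ j, algebraMap ℚ L (H i j) * x j := by
      intro i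
      unfold lin
      simp only [map_sum, map_mul, MvPolynomial.aeval_C, MvPolynomial.aeval_X]
    have hFx : MvPolynomial.aeval x ((∏ i, lin (H i)) * E) =
        (∏ i, ∑ j, algebraMap ℚ L (H i j) * x j) * MvPolynomial.aeval x E := by
      rw [map_mul, map_prod]
      congr 1
      exact Finset.prod_congr rfl fun i _ => hlin i
    have hFx0 : MvPolynomial.aeval x ((∏ i, lin (H i)) * E) ≠ 0 := by
      rw [hFx]
      exact mul_ne_zero (Finset.prod_ne_zero_iff.2 fun i _ => hforms i) hEx
    have h1 := hC L (hfin.trans hr) x hx hFx0 hGx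
    -- the primes above `S`
    have hset : {v : HeightOneSpectrum (𝓞 L) | ∃ p ∈ S, (p : 𝓞 L) ∈ v.asIdeal}.Finite := by
      have hsub : {v : HeightOneSpectrum (𝓞 L) | ∃ p ∈ S, (p : 𝓞 L) ∈ v.asIdeal} ⊆
          ⋃ p ∈ S, {v : HeightOneSpectrum (𝓞 L) | Pool.Agent.W231.V.fv v (p : L) ≠ 1} := by
        rintro v ⟨p', hp', hv⟩
        simp only [Set.mem_iUnion]
        refine ⟨p', hp', ?_⟩
        have h2 := (FinitePlace.norm_lt_one_iff_mem L v (p' : 𝓞 L)).2 hv
        rw [map_natCast] at h2
        exact h2.ne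
      exact (Set.Finite.biUnion S.finite_toSet fun p' hp' => Pool.Agent.W231.V.fv_support_finite
        (Nat.cast_ne_zero.2 (Nat.prime_of_mem_primeFactors hp').ne_zero)).subset hsub
    have h2 := hU hset.toFinset (by
      intro v hv
      rw [Set.Finite.mem_toFinset] at hv
      have hv' : ((N * 2 : ℕ) : 𝓞 L) ∉ v.asIdeal := by
        intro hmem
        apply hv
        have hNN : N * 2 ≠ 0 := mul_ne_zero hN two_ne_zero
        have e1 : ((N * 2 : ℕ) : 𝓞 L) = ((N * 2).primeFactorsList.map fun p : ℕ => (p : 𝓞 L)).prod := by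
          rw [← Nat.cast_list_prod, Nat.prod_primeFactorsList hNN]
        rw [e1] at hmem
        rw [← Multiset.prod_coe] at hmem
        obtain ⟨a, ha, hav⟩ := (v.isPrime.multiset_prod_mem_iff_exists_mem _).1 hmem
        rw [Multiset.mem_coe, List.mem_map] at ha
        obtain ⟨p, hp, rfl⟩ := ha
        exact ⟨p, by rw [hS]; exact Nat.mem_primeFactors_iff_mem_primeFactorsList.2 hp, hav⟩
      have h3 := (FinitePlace.norm_eq_one_iff_notMem L v ((N * 2 : ℕ) : 𝓞 L)).2 hv'
      rw [map_natCast] at h3
      exact h3)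
    -- the proximity function
    have hweil : ∀ f : AbsoluteValue L ℝ, weil f ((∏ i, lin (H i)) * E) (n + 2 + e) x =
        (n + 2 + e) * Real.log (⨆ j, f (x j)) -
          (∑ i, Real.log (f (∑ j, algebraMap ℚ L (H i j) * x j)) +
            Real.log (f (MvPolynomial.aeval x E))) := by
      intro f
      obtain ⟨j', hj'⟩ := Function.ne_iff.1 hx
      have p2 : 0 < ⨆ j, f (x j) := (f.pos_iff.2 hj').trans_le
        (le_ciSup (f := fun j => f (x j)) (Set.finite_range _).bddAbove j')
      rw [weil, Real.log_div (pow_pos p2 _).ne' (f.pos_iff.2 hFx0).ne', Real.log_pow, hFx, map_mul,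
        Real.log_mul (f.pos_iff.2 (Finset.prod_ne_zero_iff.2 fun i _ => hforms i)).ne'
          (f.pos_iff.2 hEx).ne', map_prod, Real.log_prod fun i _ => (f.pos_iff.2 (hforms i)).ne']
      push_cast
      ring
    have hprox : proximity S ((∏ i, lin (H i)) * E) (n + 2 + e) x =
        Pool.Agent.W231.M.Sm hset.toFinset (fun f => (n + 2 + e) * Real.log (⨆ j, f (x j)) -
          (∑ i, Real.log (f (∑ j, algebraMap ℚ L (H i j) * x j)) +
            Real.log (f (MvPolynomial.aeval x E)))) / Module.finrank ℚ L := by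
      unfold proximity Pool.Agent.W231.M.Sm
      rw [finsum_mem_eq_finite_toFinset_sum _ hset]
      congr 2
      · refine Finset.sum_congr rfl fun w _ => ?_
        have := hweil w.1
        have h' : weil w ((∏ i, lin (H i)) * E) (n + 2 + e) x =
          weil w.1 ((∏ i, lin (H i)) * E) (n + 2 + e) x := rfl
        rw [h', this]
      · exact Finset.sum_congr rfl fun v _ => hweil (Pool.Agent.W231.V.fv v)
    rw [hprox] at h1
    unfold height at h1
    have hfr : (0 : ℝ) < Module.finrank ℚ L := by exact_mod_cast Module.finrank_pos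
    rw [← sub_nonpos] at h1
    have h3 : (Module.finrank ℚ L : ℝ) * (Pool.Agent.W231.M.Sm hset.toFinset
        (fun f => (n + 2 + e) * Real.log (⨆ j, f (x j)) -
          (∑ i, Real.log (f (∑ j, algebraMap ℚ L (H i j) * x j)) +
            Real.log (f (MvPolynomial.aeval x E)))) / Module.finrank ℚ L +
        -(n + 1) * (Height.logHeight x / Module.finrank ℚ L) -
        Real.log |(discr L : ℝ)| / Module.finrank ℚ L -
        (ε * (Height.logHeight x / Module.finrank ℚ L) + C)) ≤ 0 :=
      mul_nonpos_of_nonneg_of_nonpos hfr.le h1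
    have h4 : (Module.finrank ℚ L : ℝ) * (Pool.Agent.W231.M.Sm hset.toFinset
        (fun f => (n + 2 + e) * Real.log (⨆ j, f (x j)) -
          (∑ i, Real.log (f (∑ j, algebraMap ℚ L (H i j) * x j)) +
            Real.log (f (MvPolynomial.aeval x E)))) / Module.finrank ℚ L +
        -(n + 1) * (Height.logHeight x / Module.finrank ℚ L) -
        Real.log |(discr L : ℝ)| / Module.finrank ℚ L -
        (ε * (Height.logHeight x / Module.finrank ℚ L) + C)) =
        Pool.Agent.W231.M.Sm hset.toFinset
        (fun f => (n + 2 + e) * Real.log (⨆ j, f (x j)) -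
          (∑ i, Real.log (f (∑ j, algebraMap ℚ L (H i j) * x j)) +
            Real.log (f (MvPolynomial.aeval x E)))) - (n + 1) * Height.logHeight x -
        Real.log |(discr L : ℝ)| - ε * Height.logHeight x - Module.finrank ℚ L * C := by
      field_simp
      ring
    rw [h4] at h3
    linarith
  refine ⟨fun K _ _ hr Ps hPs => ?_, fun hr => ?_⟩
  · obtain ⟨Ps', hc, h⟩ := Pool.Agent.W231.G.family_monic (m := k) hk1 Ps fun P hP => by
      refine ⟨(hPs P hP).1, (hPs P hP).2, ?_⟩
      have h1 : (Polynomial.X ^ k - 1 : Polynomial K).natDegree = k := by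
        have := Polynomial.natDegree_X_pow_sub_C (n := k) (r := (1 : K))
        simpa using this
      have h2 : (Polynomial.X ^ k - 1 : Polynomial K) ≠ 0 := by
        intro h
        rw [h, Polynomial.natDegree_zero] at h1
        omega
      exact (Polynomial.natDegree_le_of_dvd (hPs P hP).2 h2).trans h1.le
    rw [← hc]
    exact key K hr Ps' fun P hP => ⟨(h P hP).1, (h P hP).2.1⟩
  · have : NeZero k := ⟨by omega⟩
    have : NeZero ((k : ℕ) : ℚ) := ⟨by exact_mod_cast (by omega : k ≠ 0)⟩
    set K := CyclotomicField k ℚ with hK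
    have hcyc : IsCyclotomicExtension {k} ℚ K := by
      have h : @IsCyclotomicExtension {k} ℚ (CyclotomicField k ℚ) _ _
        (CyclotomicField.algebra k ℚ) := inferInstance
      convert h
      exact Subsingleton.elim _ _
    have hζ : IsPrimitiveRoot (IsCyclotomicExtension.zeta k ℚ K) k :=
      IsCyclotomicExtension.zeta_spec k ℚ K
    have hfr : Module.finrank ℚ K = k.totient :=
      IsCyclotomicExtension.finrank K (Polynomial.cyclotomic.irreducible_rat (by omega))
    obtain ⟨Ps, hc, h⟩ := Pool.Agent.W231.G.family_root (m := k) hk1 hζ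
    rw [Nat.sum_range_choose] at hc
    rw [← hc]
    exact key K (by rw [hfr]; exact hr) Ps fun P hP => ⟨(h P hP).1, (h P hP).2.1⟩

end Pool.Agent.Results.MP_651af7_nt.BoundedDegreeExponential
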