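import Pool.Agent.W180.TP.SumF

set_option autoImplicit false

/-!
# A bound for the proximity function at algebraic points of any degree with few places above `S`

`X = {G = 0}` is a projective scheme in `ℙ^(n-1)` over a number field `K` and
`D = ∑ D_i`, `D_i = X ∩ {F i = 0}`.
-/

namespace Pool.Agent.Results.MP_651af7_nt.FewPlacesSections

open NumberField IsDedekindDomain

/-- The point with homogeneous coordinates `x` lies on the projective scheme `X = {G = 0}`. -/
def On {K L : Type} [Field K] [Field L] [Algebra K L] {m n : ℕ}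
    (G : Fin m → MvPolynomial (Fin n) K) (x : Fin n → L) : Prop :=
  ∀ k, MvPolynomial.aeval x (G k) = 0

/-- The point with homogeneous coordinates `x` lies on the line through `y` and `y'`. -/
def OnLine {K L : Type} [Field K] [Field L] [Algebra K L] {n : ℕ} (y y' : Fin n → K)
    (x : Fin n → L) : Prop :=
  ∃ s t : L, x = fun b => s * algebraMap K L (y b) + t * algebraMap K L (y' b)

/-- The hypersurfaces `A = 0` and `B = 0` meet on `X = {G = 0}` in `K`-rational points only (over
every extension of `K`), and the `μ`-th power of the ideal of these points is contained, locally,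
in the ideal of the scheme `X ∩ {A = B = 0}`. For `μ = 1` the second condition says that the
scheme `X ∩ {A = B = 0}` is reduced: if `X` is a surface, then `X` is smooth at the points of this
scheme and the curves `A = 0` and `B = 0` on `X` meet transversally there. -/
def Contact {K : Type} [Field K] {m n : ℕ} (μ : ℕ) (G : Fin m → MvPolynomial (Fin n) K)
    (A B : MvPolynomial (Fin n) K) : Prop :=
  (∀ (L : Type) [Field L] [Algebra K L] (x : Fin n → L), x ≠ 0 → On G x →
    MvPolynomial.aeval x A = 0 → MvPolynomial.aeval x B = 0 →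
      ∃ (y : Fin n → K) (c : L), x = c • fun b => algebraMap K L (y b)) ∧
  ∀ Q ∈ (Ideal.span ({A, B} ∪ Set.range G)).radical ^ μ, ∀ a : Fin n, ∃ M : ℕ,
    MvPolynomial.X a ^ M * Q ∈ Ideal.span ({A, B} ∪ Set.range G)

/-- The local height of the hypersurface `F = 0` of degree `d` at the point with homogeneous
coordinates `x`, for the absolute value `a` of `L`. -/
noncomputable def weil {K L : Type} [Field K] [Field L] [Algebra K L] {n : ℕ} (a : L → ℝ) (d : ℕ)
    (F : MvPolynomial (Fin n) K) (x : Fin n → L) : ℝ :=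
  Real.log ((⨆ j, a (x j)) ^ d / a (MvPolynomial.aeval x F))

/-- The proximity function `m_{T,D}(x)`, with absolute normalisation, of `D = ∑ {F i = 0}`, where
`F i` has degree `d i`, for the set `T` of the archimedean places in `T₁` and the primes in
`T₂`. -/
noncomputable def proximity {K L : Type} [Field K] [Field L] [NumberField L] [Algebra K L]
    {n q : ℕ} (T₁ : Finset (InfinitePlace L)) (T₂ : Finset (HeightOneSpectrum (𝓞 L)))
    (F : Fin q → MvPolynomial (Fin n) K) (d : Fin q → ℕ) (x : Fin n → L) : ℝ :=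
  ((∑ w ∈ T₁, w.mult * ∑ i, weil w (d i) (F i) x) +
    ∑ v ∈ T₂, ∑ i, weil (FinitePlace.mk v) (d i) (F i) x) / Module.finrank ℚ L

/-- The absolute logarithmic height. -/
noncomputable def height {L : Type} [Field L] [NumberField L] {n : ℕ} (x : Fin n → L) : ℝ :=
  Height.logHeight x / Module.finrank ℚ L

/-- Let `X = {G = 0}` be a projective scheme over a number field `K`, let `F i`, `i < q`, be forms
of degrees `d i`, suppose any two of the `D_i = X ∩ {F i = 0}` meet in `K`-rational points with
contact at most `μ` and no three have a common point. There is a finite set `Z` of lines over `K`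
such that for all `s` and all `Δ` bounding the sums of at most `s` of the degrees `d i` there is
`C` with `m_{T,D}(x) ≤ (Δ + μ max(1, s/2)) h(x) + C` for every number field `L ⊇ K`, every set
`T` of at most `s` places of `L` and every `L`-rational point `x` of `X` off `D` and `Z`. -/
theorem result (K : Type) [Field K] [NumberField K] (m n q : ℕ) (hq : 0 < q)
    (G : Fin m → MvPolynomial (Fin n) K) (g : Fin m → ℕ) (hG : ∀ k, (G k).IsHomogeneous (g k))
    (F : Fin q → MvPolynomial (Fin n) K) (d : Fin q → ℕ) (hF : ∀ i, (F i).IsHomogeneous (d i))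
    (μ : ℕ) (hc : ∀ i j, i ≠ j → Contact μ G (F i) (F j))
    (h3 : ∀ i j k, i ≠ j → i ≠ k → j ≠ k → ∀ (L : Type) [Field L] [Algebra K L] (x : Fin n → L),
      x ≠ 0 → MvPolynomial.aeval x (F i) = 0 → MvPolynomial.aeval x (F j) = 0 →
        MvPolynomial.aeval x (F k) = 0 → ¬ On G x) :
    ∃ Z : Finset ((Fin n → K) × (Fin n → K)), (∀ z ∈ Z, LinearIndependent K ![z.1, z.2]) ∧
      ∀ s Δ : ℕ, (∀ I : Finset (Fin q), I.card ≤ s → ∑ i ∈ I, d i ≤ Δ) → ∃ C : ℝ,
        ∀ (L : Type) [Field L] [NumberField L] [Algebra K L] (T₁ : Finset (InfinitePlace L))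
          (T₂ : Finset (HeightOneSpectrum (𝓞 L))), T₁.card + T₂.card ≤ s →
          ∀ x : Fin n → L, x ≠ 0 → On G x → (∀ i, MvPolynomial.aeval x (F i) ≠ 0) →
            (∀ z ∈ Z, ¬ OnLine z.1 z.2 x) →
            proximity T₁ T₂ F d x ≤ (Δ + μ * max 1 ((s : ℝ) / 2)) * height x + C := by
  classical
  have hweil : ∀ (L : Type) [Field L] [Algebra K L] (f : AbsoluteValue L ℝ) (e : ℕ)
      (H : MvPolynomial (Fin n) K) (x : Fin n → L), weil f e H x =
      Pool.Agent.W180.OP.lam f e (Pool.Agent.W180.OP.bc L H) x := by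
    intro L _ _ f e H x
    unfold weil Pool.Agent.W180.OP.lam
    rw [Pool.Agent.W180.OP.eval_bc]
    rfl
  have hprox : ∀ (L : Type) [Field L] [NumberField L] [Algebra K L]
      (T₁ : Finset (InfinitePlace L)) (T₂ : Finset (HeightOneSpectrum (𝓞 L))) (x : Fin n → L),
      proximity T₁ T₂ F d x = (∑ p ∈ (T₁.disjSum T₂ : Finset (Pool.Agent.W180.OP.Pl L)),
        Pool.Agent.W180.OP.wt p * ∑ i, Pool.Agent.W180.OP.lam (Pool.Agent.W180.OP.av p) (d i)
          (Pool.Agent.W180.OP.bc L (F i)) x) / Module.finrank ℚ L := by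
    intro L _ _ _ T₁ T₂ x
    unfold proximity
    rw [Finset.sum_disjSum]
    congr 2
    · refine Finset.sum_congr rfl fun w _ => ?_
      congr 1
      exact Finset.sum_congr rfl fun i _ => hweil L w.1 (d i) (F i) x
    · refine Finset.sum_congr rfl fun v _ => ?_
      show _ = (1 : ℝ) * _
      rw [one_mul]
      exact Finset.sum_congr rfl fun i _ => hweil L (Pool.Agent.W180.OP.fv v) (d i) (F i) x
  have hrange : ∀ A B : MvPolynomial (Fin n) K, Set.range (Sum.elim ![A, B] G) =
      {A, B} ∪ Set.range G := by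
    intro A B
    rw [Set.Sum.elim_range]
    congr 1
    ext P
    simp only [Matrix.range_cons, Matrix.range_empty, Set.union_empty, Set.mem_union,
      Set.mem_singleton_iff, Set.mem_insert_iff]
  obtain ⟨Z, hZ, C, hC0, hC⟩ := Pool.Agent.W180.TP.sum_final hq G g hG F d hF μ (by
      intro i j hij a Q hQ
      rw [hrange] at hQ ⊢
      exact (hc i j hij).2 Q hQ a) (by
      intro i j hij L _ _ x hx h1 h2 h3
      exact (hc i j hij).1 L x hx h3 h1 h2) h3
  refine ⟨Z, hZ, fun s Δ hΔ => ⟨C * (s + 1), ?_⟩⟩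
  intro L _ _ _ T₁ T₂ hT x hx hGx hFx hZx
  have hN : (0 : ℝ) < Module.finrank ℚ L := by exact_mod_cast Module.finrank_pos
  have hcard : (T₁.disjSum T₂ : Finset (Pool.Agent.W180.OP.Pl L)).card = T₁.card + T₂.card :=
    Finset.card_disjSum _ _
  have h1 := hC L (T₁.disjSum T₂) Δ (fun I hI => hΔ I (by rw [hcard] at hI; omega)) x hx hGx hFx
    hZx
  rw [hcard] at h1
  have hs : ((T₁.card + T₂.card : ℕ) : ℝ) ≤ s := by exact_mod_cast hT
  have hh := Height.logHeight_nonneg x
  have h2 : max 1 (((T₁.card + T₂.card : ℕ) : ℝ) / 2) ≤ max 1 ((s : ℝ) / 2) :=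
    max_le_max le_rfl (by linarith)
  have h4 : (Δ + μ * max 1 (((T₁.card + T₂.card : ℕ) : ℝ) / 2)) * Height.logHeight x ≤
      (Δ + μ * max 1 ((s : ℝ) / 2)) * Height.logHeight x := by
    refine mul_le_mul_of_nonneg_right ?_ hh
    have := mul_le_mul_of_nonneg_left h2 (Nat.cast_nonneg (α := ℝ) μ)
    linarith
  have h5 : C * (((T₁.card + T₂.card : ℕ) : ℝ) + 1) * Module.finrank ℚ L ≤
      C * (s + 1) * Module.finrank ℚ L :=
    mul_le_mul_of_nonneg_right (mul_le_mul_of_nonneg_left (by linarith) hC0) hN.le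
  rw [hprox, height, div_le_iff₀ hN]
  refine (h1.trans (add_le_add h4 h5)).trans (le_of_eq ?_)
  field_simp

end Pool.Agent.Results.MP_651af7_nt.FewPlacesSections
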