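import Mathlib
import Pool.Agent.W226.VQ.Main3

/-!
# Vojta's inequality for quadratic points on the projective line

Let `D` be an arbitrary reduced divisor of degree `q` on the projective line over `ℚ` (its points
need not be rational), `S` a finite set of primes. Vojta's inequality for quadratic points, with
respect to `D` and the places of `S` and infinity, with the discriminant term and with error term
`ε h(x) + c`, holds for all quadratic points of height at most `log B` with at most
`C B ^ (max 0 ((4 - 2 ε) / 3) + δ)` exceptions. There are about `B ^ 6` quadratic points of height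
at most `log B`.

Proof. Let `f`, `g` be the minimal polynomials of two exceptional points. If both generate the same
quadratic field, a gap principle for the resultant of `f` and `g` (product formula, all places)
bounds their number; the violation of the inequality bounds the squarefree part `t` of the
discriminant of `f`. For two different fields the resultant is nonzero as well and is small at the
places of `S` and infinity; the exceptional `f` in one class of approximation therefore lie on few
lattice points of a small convex body, or in a two dimensional lattice, on which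
`Res(f, g) = det(f, g)² · const`.
-/

set_option autoImplicit false

namespace Pool.Agent.Results.MP_651af7_nt.QuadraticPoints

open Polynomial IntermediateField

/-- The absolute logarithmic height `(log M(f)) / deg f` of the roots of an irreducible primitive
`f` (`M` is the Mahler measure). -/
noncomputable def height (f : ℤ[X]) : ℝ :=
  Real.log (f.map (Int.castRingHom ℂ)).mahlerMeasure / f.natDegree

/-- `λ_{D,∞}(x)` for the divisor `D` of degree `q` given by `G`: the average over the conjugates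
`z` of `x`, i.e. the roots of `f`, of `log (max(1,|z|)^q / |G(z)|)`. -/
noncomputable def lambdaInf (G : ℤ[X]) (q : ℕ) (f : ℤ[X]) : ℝ :=
  ((f.map (Int.castRingHom ℂ)).roots.map fun z =>
    Real.log (max 1 ‖z‖ ^ q / ‖(G.map (Int.castRingHom ℂ)).eval z‖)).sum / f.natDegree

/-- `λ_{D,p}(x)`, the average over the conjugates `z` of `x` over `ℚ_p` of
`log (max(1,|z|_p)^q / |G(z)|_p)`; for primitive `f` the sum over the conjugates is
`-log |Res(f,G)|_p`, with `Res` the resultant for the degrees `deg f` and `q`. -/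
noncomputable def lambdaP (p : ℕ) (G : ℤ[X]) (q : ℕ) (f : ℤ[X]) : ℝ :=
  (padicValInt p (resultant f G f.natDegree q) : ℝ) * Real.log p / f.natDegree

open Classical in
/-- The logarithmic discriminant `d(x)` of the field `ℚ(x)`. -/
noncomputable def logDisc (x : ℂ) : ℝ :=
  if _ : NumberField ℚ⟮x⟯ then
    Real.log |(NumberField.discr ℚ⟮x⟯ : ℝ)| / Module.finrank ℚ ℚ⟮x⟯ else 0

/-- `x` is an algebraic number of degree `r` with minimal polynomial `f` over `ℤ`, of height at
most `log B`, and not in the support of `D`. -/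
def Pt (G : ℤ[X]) (r : ℕ) (B : ℝ) (x : ℂ) (f : ℤ[X]) : Prop :=
  Irreducible f ∧ f.natDegree = r ∧ aeval x f = 0 ∧ height f ≤ Real.log B ∧ aeval x G ≠ 0

/-- a root of `f` outside the support of `D` has nonzero resultant -/
lemma resultant_ne (f G : ℤ[X]) (q : ℕ) (hGq : G.natDegree ≤ q) (hf : Irreducible f)
    (hd : 1 ≤ f.natDegree) (x : ℂ) (hx : aeval x f = 0) (hG : aeval x G ≠ 0) :
    resultant f G f.natDegree q ≠ 0 := by
  intro h0
  have h1 := Pool.Agent.H990R4.VJ.res_eq f G q hGq
  rw [h0, Int.cast_zero, eq_comm, mul_eq_zero] at h1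
  rcases h1 with h1 | h1
  · have h2 : (f.leadingCoeff : ℂ) = 0 := by
      by_contra hne
      exact (pow_ne_zero q hne) h1
    exact hf.ne_zero (leadingCoeff_eq_zero.1 (by exact_mod_cast h2))
  · obtain ⟨z, hz, hz0⟩ := Multiset.mem_map.1 (Multiset.prod_eq_zero_iff.1 h1)
    rw [mem_roots'] at hz
    have hzf : aeval z f = 0 := by
      have := hz.2
      rw [IsRoot.def, eval_map] at this
      rw [aeval_def]; exact this
    have hzG : aeval z G = 0 := by
      rw [eval_map] at hz0
      rw [aeval_def]; exact hz0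
    have hprim : f.IsPrimitive := hf.isPrimitive (by omega)
    have hirr : Irreducible (f.map (algebraMap ℤ ℚ)) :=
      (hprim.irreducible_iff_irreducible_map_fraction_map).1 hf
    have hzf' : aeval z (f.map (algebraMap ℤ ℚ)) = 0 := by rw [aeval_map_algebraMap]; exact hzf
    have hzG' : aeval z (G.map (algebraMap ℤ ℚ)) = 0 := by rw [aeval_map_algebraMap]; exact hzG
    have hm1 : minpoly ℚ z ∣ f.map (algebraMap ℤ ℚ) := minpoly.dvd ℚ z hzf'
    have hm2 : minpoly ℚ z ∣ G.map (algebraMap ℤ ℚ) := minpoly.dvd ℚ z hzG'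
    have hint : IsIntegral ℚ z := by
      rw [← isAlgebraic_iff_isIntegral]
      exact ⟨f.map (algebraMap ℤ ℚ), hirr.ne_zero, hzf'⟩
    have hass : Associated (minpoly ℚ z) (f.map (algebraMap ℤ ℚ)) :=
      (minpoly.irreducible hint).associated_of_dvd hirr hm1
    have hdvd : f.map (algebraMap ℤ ℚ) ∣ G.map (algebraMap ℤ ℚ) := hass.symm.dvd.trans hm2
    obtain ⟨k, hk⟩ := hdvd
    apply hG
    have h5 : aeval x (G.map (algebraMap ℤ ℚ)) = 0 := by
      rw [hk, map_mul, aeval_map_algebraMap, hx, zero_mul]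
    rwa [aeval_map_algebraMap] at h5

/-- **Vojta's inequality for quadratic points and reduced divisors on the line.** Let `D` be
the reduced effective divisor of degree `q ≥ 1` on the projective line over `ℚ` given by `G`, `S` a
finite set of primes, `ε > 0`, `c` real and `δ > 0`. Then for all `B ≥ 1`, with at most
`C * B ^ (max 0 ((4 - 2 * ε) / 3) + δ)` exceptions, all quadratic numbers `x` of height at most
`log B` outside the support of `D` satisfy
`∑_{v ∈ S ∪ {∞}} λ_{D,v}(x) + h_K(x) - d(x) ≤ ε h(x) + c`, with `h_K = -2 h`. -/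
theorem result (q : ℕ) (hq : 1 ≤ q) (G : ℤ[X])
    (hG : Squarefree (G.map (Int.castRingHom ℚ))) (hGq : G.natDegree ≤ q)
    (hqG : q ≤ G.natDegree + 1) (S : Finset ℕ) (hS : ∀ p ∈ S, p.Prime) (ε c δ : ℝ)
    (hε : 0 < ε) (hδ : 0 < δ) :
    ∃ C : ℝ, ∀ B : ℝ, 1 ≤ B → ∃ T : Finset ℂ,
      (T.card : ℝ) ≤ C * B ^ (max 0 ((4 - 2 * ε) / 3) + δ) ∧
      ∀ (x : ℂ) (f : ℤ[X]), Pt G 2 B x f → x ∉ T →
        lambdaInf G q f + ∑ p ∈ S, lambdaP p G q f + (-2) * height f - logDisc x ≤
          ε * height f + c := by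
  have hG0 : G ≠ 0 := by
    rintro rfl
    rw [Polynomial.map_zero] at hG
    exact hG.ne_zero rfl
  have hsep : (G.map (Int.castRingHom ℚ)).Separable := PerfectField.separable_iff_squarefree.2 hG
  obtain ⟨C, hC0, hC⟩ := Pool.Agent.W226.VQ.main3 q hq G hG0 hsep hGq hqG S hS ε
    (Real.exp (-(2 * c))) δ hε (Real.exp_pos _) hδ
  refine ⟨4 * C, fun B hB => ?_⟩
  have hB0 : 0 < B := by linarith
  set V : Set ℂ := {x | ∃ f : ℤ[X], Pt G 2 B x f ∧ ¬ (lambdaInf G q f + ∑ p ∈ S, lambdaP p G q f +
    (-2) * height f - logDisc x ≤ ε * height f + c)} with hV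
  have hcount : ∀ E : Finset ℂ, (E : Set ℂ) ⊆ V → (E.card : ℝ) ≤
      4 * C * B ^ (max 0 ((4 - 2 * ε) / 3) + δ) := by
    intro E hE
    rw [mul_assoc]
    refine Pool.Agent.W226.VQ.count_roots (Q := fun f => Irreducible f ∧ f.natDegree = 2 ∧
      Pool.Agent.H990R4.VJ.mm f ≤ B ^ 2 ∧ resultant f G 2 q ≠ 0 ∧
        |((resultant f G 2 q : ℤ) : ℝ)| *
          (∏ p ∈ S, Pool.Agent.W226.VQ.av p (resultant f G 2 q)) *
          (Pool.Agent.H813R3.Voj.op
            (Pool.Agent.W226.VQ.dsc (Pool.Agent.W226.VQ.cv f)).natAbs : ℝ) ≤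
          Real.exp (-(2 * c)) * Pool.Agent.H990R4.VJ.mm f ^ ((q : ℝ) - 2 - ε))
      (fun f hf => ⟨hf.1.ne_zero, hf.2.1⟩) (hC B hB) E fun x hx => ?_
    obtain ⟨f, ⟨hirr, hdeg, hx0, hh, hxG⟩, hn⟩ := hE hx
    refine ⟨f, ?_, hx0⟩
    have hf0 : f ≠ 0 := hirr.ne_zero
    have hM1 : 1 ≤ Pool.Agent.H990R4.VJ.mm f := Pool.Agent.H990R4.VJ.one_le_mm hf0
    have hM : 0 < Pool.Agent.H990R4.VJ.mm f := lt_of_lt_of_le one_pos hM1
    have hhe : height f = Real.log (Pool.Agent.H990R4.VJ.mm f) / 2 := by
      unfold height; rw [hdeg]; rfl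
    have hMle : Pool.Agent.H990R4.VJ.mm f ≤ B ^ 2 := by
      rw [hhe, div_le_iff₀ (by norm_num), mul_comm] at hh
      rw [← Real.log_le_log_iff hM (by positivity), Real.log_pow]
      exact_mod_cast hh
    have hR := resultant_ne f G q hGq hirr (by omega) x hx0 hxG
    have hsum := Pool.Agent.H990R4.VJ.sum_log_eq f G q hGq hf0 hR
    rw [hdeg] at hR hsum
    refine ⟨hirr, hdeg, hMle, hR, ?_⟩
    have hd : Real.log (Pool.Agent.H813R3.Voj.op
        (Pool.Agent.W226.VQ.dsc (Pool.Agent.W226.VQ.cv f)).natAbs) ≤ 2 * logDisc x :=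
      Pool.Agent.W226.VQ.log_op_le f hirr hdeg x hx0
    rw [not_le, hhe] at hn
    have hlI : lambdaInf G q f = (q * Real.log (Pool.Agent.H990R4.VJ.mm f) -
        Real.log |((resultant f G 2 q : ℤ) : ℝ)|) / 2 := by
      unfold lambdaInf; rw [hdeg, hsum]; norm_num
    have hlP : ∑ p ∈ S, lambdaP p G q f =
        (∑ p ∈ S, (padicValInt p (resultant f G 2 q) : ℝ) * Real.log p) / 2 := by
      unfold lambdaP; rw [hdeg, ← Finset.sum_div]; norm_num
    rw [hlI, hlP] at hn
    have hRpos : (0 : ℝ) < |((resultant f G 2 q : ℤ) : ℝ)| := abs_pos.2 (by exact_mod_cast hR)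
    have havp : ∀ p ∈ S, 0 < Pool.Agent.W226.VQ.av p (resultant f G 2 q) :=
      fun p hp => Pool.Agent.W226.VQ.av_pos p (hS p hp) hR
    have hop : (0 : ℝ) < (Pool.Agent.H813R3.Voj.op
        (Pool.Agent.W226.VQ.dsc (Pool.Agent.W226.VQ.cv f)).natAbs : ℝ) := by
      exact_mod_cast Pool.Agent.H813R3.Voj.op_pos _
    have hprod : 0 < ∏ p ∈ S, Pool.Agent.W226.VQ.av p (resultant f G 2 q) :=
      Finset.prod_pos havp
    rw [← Real.log_le_log_iff (by positivity) (by positivity),
      Real.log_mul (by positivity) hop.ne', Real.log_mul hRpos.ne' hprod.ne',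
      Real.log_prod fun p hp => (havp p hp).ne', Real.log_mul (Real.exp_pos _).ne' (by positivity),
      Real.log_exp, Real.log_rpow hM]
    have hlp : ∑ p ∈ S, Real.log (Pool.Agent.W226.VQ.av p (resultant f G 2 q)) =
        -∑ p ∈ S, (padicValInt p (resultant f G 2 q) : ℝ) * Real.log p := by
      rw [← Finset.sum_neg_distrib]
      refine Finset.sum_congr rfl fun p hp => ?_
      rw [Pool.Agent.W226.VQ.av_eq p (hS p hp) hR, Real.log_inv, Real.log_pow]
    rw [hlp]
    linarith
  have hfin : V.Finite := by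
    by_contra hinf
    obtain ⟨E, hEV, hEc⟩ := Set.Infinite.exists_subset_card_eq hinf
      (⌊4 * C * B ^ (max 0 ((4 - 2 * ε) / 3) + δ)⌋₊ + 1)
    have h1 := hcount E hEV
    have h2 := Nat.lt_floor_add_one (4 * C * B ^ (max 0 ((4 - 2 * ε) / 3) + δ))
    rw [hEc] at h1
    push_cast at h1
    linarith
  refine ⟨hfin.toFinset, hcount _ (by rw [Set.Finite.coe_toFinset]), fun x f hpt hxT => ?_⟩
  by_contra hcon
  exact hxT (hfin.mem_toFinset.mpr ⟨f, hpt, hcon⟩)

end Pool.Agent.Results.MP_651af7_nt.QuadraticPoints
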