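import Pool.Agent.W257.Q3

/-!
# An inequality of Vojta type for all rational points of affine surfaces

`F(x, y, z)` is a polynomial of degree `m ≥ 3` with integer coefficients. We consider all rational
points of the affine surface `F = 0` and write them `(x / w, b g / w, a g / w)` with integers, for
instance with `w` the least common denominator and `g` the gcd of the numerators of `y` and `z`.
Off a fixed curve of the surface `|a| < |b w|^M`, in the following two cases.

1. The top form `H` of `F` is irreducible over `ℚ` and `H(x, 0, z)` is a product of `m` distinct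
   factors `x - ρ z` with `ρ` an integer.
2. `F = x^m - z^m - r y^m - R(x, y, z)`, `r ≠ 0`, `deg R < m`.
-/

namespace Pool.Agent.Results.MP_651af7_nt.RationalPointsOfSurfaces

open MvPolynomial

theorem result :
    (∀ (m : ℕ) (ρ : Fin m → ℤ) (H R : MvPolynomial (Fin 3) ℤ), 3 ≤ m →
      Function.Injective ρ → H.IsHomogeneous m →
      Irreducible (map (Int.castRingHom ℚ) H) →
      aeval ![X 0, 0, X 1] H = ∏ i, (X 0 - C (ρ i) * X 1 : MvPolynomial (Fin 2) ℤ) →
      R.totalDegree < m →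
      Irreducible (map (Int.castRingHom ℚ) (H - R)) ∧
      ∃ (G : MvPolynomial (Fin 3) ℤ) (M : ℕ),
        ¬ map (Int.castRingHom ℚ) (H - R) ∣ map (Int.castRingHom ℚ) G ∧
        ∀ x a b g w : ℤ, w ≠ 0 →
          aeval ![(x : ℚ) / w, ((b * g : ℤ) : ℚ) / w, ((a * g : ℤ) : ℚ) / w] (H - R) = 0 →
          aeval ![(x : ℚ) / w, ((b * g : ℤ) : ℚ) / w, ((a * g : ℤ) : ℚ) / w] G = 0 ∨
            |a| < |b * w| ^ M) ∧
    (∀ (m : ℕ) (r : ℤ) (R : MvPolynomial (Fin 3) ℤ), 3 ≤ m → r ≠ 0 → R.totalDegree < m →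
      ∀ F : MvPolynomial (Fin 3) ℤ, F = X 0 ^ m - X 2 ^ m - C r * X 1 ^ m - R →
      Irreducible (map (Int.castRingHom ℚ) F) ∧
      ∃ (G : MvPolynomial (Fin 3) ℤ) (M : ℕ),
        ¬ map (Int.castRingHom ℚ) F ∣ map (Int.castRingHom ℚ) G ∧
        ∀ x a b g w : ℤ, w ≠ 0 →
          aeval ![(x : ℚ) / w, ((b * g : ℤ) : ℚ) / w, ((a * g : ℤ) : ℚ) / w] F = 0 →
          aeval ![(x : ℚ) / w, ((b * g : ℤ) : ℚ) / w, ((a * g : ℤ) : ℚ) / w] G = 0 ∨
            |a| < |b * w| ^ M) := by
  have key : ∀ (a c : ℤ) (M : ℕ), a.natAbs < c.natAbs ^ M → |a| < |c| ^ M := by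
    intro a c M h
    rw [Int.abs_eq_natAbs, Int.abs_eq_natAbs]
    exact_mod_cast h
  constructor
  · intro m ρ H R hm hρ hH hHi hH0 hR
    obtain ⟨h1, G, M, h2, h3⟩ := Pool.Agent.W257.mainW_split hm hρ hH hHi hH0 hR
    exact ⟨h1, G, M, h2, fun x a b g w hw h => (h3 x a b g w hw h).imp id (key a (b * w) M)⟩
  · intro m r R hm hr hR F hF
    rw [hF]
    obtain ⟨h1, G, M, h2, h3⟩ := Pool.Agent.W257.mainW_pure hm hr hR
    exact ⟨h1, G, M, h2, fun x a b g w hw h => (h3 x a b g w hw h).imp id (key a (b * w) M)⟩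

end Pool.Agent.Results.MP_651af7_nt.RationalPointsOfSurfaces
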